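import Pool.Agent.helper63.NU.Defs2
import Pool.Agent.helper69.NU.B2
import Pool.Agent.helper51.NU.B3
import Pool.Agent.helper80.NU.B4
import Pool.Agent.helper70.NU.C2b
import Pool.Agent.helper2.NU.C4

set_option autoImplicit false
set_option linter.all false

/-! Module C5: Bergman functions. -/

open MeasureTheory Filter Topology Set
open scoped ContDiff Manifold Matrix ENNReal ComplexOrder

noncomputable section

namespace Pool.Agent.helper63.NU

namespace C5

variable {n : ℕ} {M : Type*} [TopologicalSpace M] [ChartedSpace (E n) M]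

/-- the value of a section in the preferred chart -/
def val (s : Fam n M ℂ) (x : M) : ℂ := s (chartAt (E n) x) (chartAt (E n) x x)

/-- the weight in the preferred chart -/
def wt (k : ℕ) (φ : Fam n M ℝ) (x : M) : ℝ :=
  Real.exp (-(k * φ (chartAt (E n) x) (chartAt (E n) x x)))

lemma wt_pos (k : ℕ) (φ : Fam n M ℝ) (x : M) : 0 < wt k φ x := Real.exp_pos _

lemma hp_val (k : ℕ) (φ : Fam n M ℝ) (s t : Fam n M ℂ) (x : M) :
    hp k φ s t x = val s x * (starRingEnd ℂ) (val t x) * (wt k φ x : ℂ) := by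
  simp only [hp, val, wt]

lemma nrm_val (k : ℕ) (φ : Fam n M ℝ) (s : Fam n M ℂ) (x : M) :
    nrm k φ s x = ‖val s x‖ ^ 2 * wt k φ x := rfl

lemma hp_self (k : ℕ) (φ : Fam n M ℝ) (s : Fam n M ℂ) (x : M) :
    hp k φ s s x = (nrm k φ s x : ℂ) := by
  rw [hp_val, nrm_val, Complex.mul_conj, Complex.normSq_eq_norm_sq]
  push_cast
  rfl

lemma nrm_nonneg (k : ℕ) (φ : Fam n M ℝ) (s : Fam n M ℂ) (x : M) : 0 ≤ nrm k φ s x := by
  rw [nrm_val]
  exact mul_nonneg (sq_nonneg _) (wt_pos k φ x).le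

lemma val_add (s t : Fam n M ℂ) (x : M) : val (s + t) x = val s x + val t x := rfl
lemma val_sub (s t : Fam n M ℂ) (x : M) : val (s - t) x = val s x - val t x := rfl
lemma val_smul (c : ℂ) (s : Fam n M ℂ) (x : M) : val (c • s) x = c * val s x := rfl
lemma val_sum {ι : Type*} (I : Finset ι) (s : ι → Fam n M ℂ) (x : M) :
    val (∑ i ∈ I, s i) x = ∑ i ∈ I, val (s i) x := by
  classical
  induction I using Finset.induction_on with
  | empty => simp [val]
  | insert a I ha ih => rw [Finset.sum_insert ha, Finset.sum_insert ha, val_add, ih]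

variable [IsManifold 𝓘(ℂ, E n) ω M]
variable [CompactSpace M] [T2Space M]
variable [MeasurableSpace M] [BorelSpace M] {μ : Measure M} {φ : Fam n M ℝ}

/-- the hermitian form -/
def bf (μ : Measure M) (φ : Fam n M ℝ) (k : ℕ) (s t : Fam n M ℂ) : ℂ :=
  ∫ x, hp k φ s t x * (dl φ x : ℂ) ∂μ

lemma integrable_hp (hφ : IsPos 1 φ) (hμ : IsDens μ φ) {k : ℕ} {s t : Fam n M ℂ}
    (hs : IsSec k s) (ht : IsSec k t) : Integrable (fun x => hp k φ s t x * (dl φ x : ℂ)) μ := by
  haveI := isFiniteMeasure_of_isDens hφ.toIsWeight hμ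
  have hc : Continuous (fun x => hp k φ s t x * (dl φ x : ℂ)) :=
    (continuous_hp hφ.toIsWeight hs ht).mul (Complex.continuous_ofReal.comp (continuous_dl hφ))
  exact hc.integrable_of_hasCompactSupport (HasCompactSupport.of_compactSpace _)

lemma bf_add_left (hφ : IsPos 1 φ) (hμ : IsDens μ φ) {k : ℕ} {s s' t : Fam n M ℂ}
    (hs : IsSec k s) (hs' : IsSec k s') (ht : IsSec k t) :
    bf μ φ k (s + s') t = bf μ φ k s t + bf μ φ k s' t := by
  unfold bf
  rw [← integral_add (integrable_hp hφ hμ hs ht) (integrable_hp hφ hμ hs' ht)]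
  congr 1
  funext x
  rw [hp_val, hp_val, hp_val, val_add]
  ring

lemma bf_sub_left (hφ : IsPos 1 φ) (hμ : IsDens μ φ) {k : ℕ} {s s' t : Fam n M ℂ}
    (hs : IsSec k s) (hs' : IsSec k s') (ht : IsSec k t) :
    bf μ φ k (s - s') t = bf μ φ k s t - bf μ φ k s' t := by
  unfold bf
  rw [← integral_sub (integrable_hp hφ hμ hs ht) (integrable_hp hφ hμ hs' ht)]
  congr 1
  funext x
  rw [hp_val, hp_val, hp_val, val_sub]
  ring

lemma bf_smul_left (μ : Measure M) (φ : Fam n M ℝ) (k : ℕ) (c : ℂ) (s t : Fam n M ℂ) :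
    bf μ φ k (c • s) t = c * bf μ φ k s t := by
  unfold bf
  rw [← integral_const_mul]
  congr 1
  funext x
  rw [hp_val, hp_val, val_smul]
  ring

lemma bf_conj (μ : Measure M) (φ : Fam n M ℝ) (k : ℕ) (s t : Fam n M ℂ) :
    (starRingEnd ℂ) (bf μ φ k s t) = bf μ φ k t s := by
  unfold bf
  rw [← integral_conj]
  congr 1
  funext x
  rw [hp_val, hp_val]
  simp only [map_mul, Complex.conj_conj, Complex.conj_ofReal]
  ring

lemma bf_smul_right (μ : Measure M) (φ : Fam n M ℝ) (k : ℕ) (c : ℂ) (s t : Fam n M ℂ) :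
    bf μ φ k s (c • t) = (starRingEnd ℂ) c * bf μ φ k s t := by
  rw [← bf_conj, bf_smul_left, map_mul, bf_conj]

lemma bf_self (μ : Measure M) (φ : Fam n M ℝ) (k : ℕ) (s : Fam n M ℂ) :
    bf μ φ k s s = ((∫ x, nrm k φ s x * dl φ x ∂μ : ℝ) : ℂ) := by
  unfold bf
  rw [← integral_complex_ofReal]
  congr 1
  funext x
  rw [hp_self]
  push_cast
  rfl

lemma bf_sum_left (hφ : IsPos 1 φ) (hμ : IsDens μ φ) {k : ℕ} {N : ℕ} (c : Fin N → ℂ)
    {s : Fin N → Fam n M ℂ} (hs : ∀ j, IsSec k (s j)) {t : Fam n M ℂ} (ht : IsSec k t) :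
    bf μ φ k (∑ j, c j • s j) t = ∑ j, c j * bf μ φ k (s j) t := by
  unfold bf
  have h1 : ∀ x, hp k φ (∑ j, c j • s j) t x * (dl φ x : ℂ) =
      ∑ j, c j * (hp k φ (s j) t x * (dl φ x : ℂ)) := by
    intro x
    rw [hp_val, val_sum, Finset.sum_mul, Finset.sum_mul, Finset.sum_mul]
    refine Finset.sum_congr rfl fun j _ => ?_
    rw [val_smul, hp_val]
    ring
  simp_rw [h1]
  rw [integral_finset_sum _ fun j _ => (integrable_hp hφ hμ (hs j) ht).const_mul (c j)]
  refine Finset.sum_congr rfl fun j _ => ?_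
  rw [integral_const_mul]

lemma val_eq_zero (hφ : IsPos 1 φ) (hμ : IsDens μ φ) {k : ℕ} {s : Fam n M ℂ} (hs : IsSec k s)
    (h : ∫ x, nrm k φ s x * dl φ x ∂μ = 0) (x : M) : val s x = 0 := by
  haveI := isFiniteMeasure_of_isDens hφ.toIsWeight hμ
  haveI := isOpenPosMeasure_of_isDens hφ.toIsWeight hμ
  have hc : Continuous (fun x => nrm k φ s x * dl φ x) :=
    (continuous_nrm hφ.toIsWeight hs).mul (continuous_dl hφ)
  have hi : Integrable (fun x => nrm k φ s x * dl φ x) μ :=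
    hc.integrable_of_hasCompactSupport (HasCompactSupport.of_compactSpace _)
  have h0 : 0 ≤ fun x => nrm k φ s x * dl φ x := fun x =>
    mul_nonneg (nrm_nonneg k φ s x) (dl_pos hφ x).le
  rw [integral_eq_zero_iff_of_nonneg h0 hi] at h
  have h2 := (hc.ae_eq_iff_eq μ continuous_const).1 h
  have h3 : nrm k φ s x * dl φ x = 0 := congrFun h2 x
  have h4 : nrm k φ s x = 0 := by
    rcases mul_eq_zero.1 h3 with h | h
    · exact h
    · exact absurd h (dl_pos hφ x).ne'
  rw [nrm_val] at h4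
  rcases mul_eq_zero.1 h4 with h | h
  · exact norm_eq_zero.1 (pow_eq_zero_iff (two_ne_zero) |>.1 h)
  · exact absurd h (wt_pos k φ x).ne'

/-- Gram-Schmidt -/
lemma gs (hφ : IsPos 1 φ) (hμ : IsDens μ φ) {k : ℕ} (m : ℕ) :
    ∀ t : Fin m → Fam n M ℂ, (∀ i, IsHol k (t i)) → ∃ (N : ℕ) (s : Fin N → Fam n M ℂ),
      (∀ j, IsHol k (s j)) ∧ (∀ i j, bf μ φ k (s i) (s j) = if i = j then 1 else 0) ∧
      ∀ i, ∃ c : Fin N → ℂ, ∀ x, val (t i) x = ∑ j, c j * val (s j) x := by
  induction m with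
  | zero =>
    intro t _
    exact ⟨0, Fin.elim0, fun j => j.elim0, fun j => j.elim0, fun i => i.elim0⟩
  | succ m ih =>
    intro t ht
    obtain ⟨N, s, hs, horth, hspan⟩ := ih (fun i => t i.castSucc) fun i => ht _
    set u := t (Fin.last m) with hu
    have hu' : IsHol k u := ht _
    set d : Fin N → ℂ := fun j => bf μ φ k u (s j) with hd
    set r : Fam n M ℂ := u - ∑ j, d j • s j with hr
    have hsum : IsHol k (∑ j, d j • s j) := IsHol.sum _ fun j _ => (hs j).smul _
    have hrh : IsHol k r := hu'.sub hsum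
    have hvr : ∀ x, val u x = val r x + ∑ j, d j * val (s j) x := by
      intro x
      rw [hr, val_sub, val_sum]
      simp only [val_smul]
      ring
    have hro : ∀ j, bf μ φ k r (s j) = 0 := by
      intro j
      rw [hr, bf_sub_left hφ hμ hu'.toIsSec hsum.toIsSec (hs j).toIsSec,
        bf_sum_left hφ hμ d (fun i => (hs i).toIsSec) (hs j).toIsSec]
      simp only [horth, mul_ite, mul_one, mul_zero, Finset.sum_ite_eq', Finset.mem_univ, if_true]
      rw [hd]
      ring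
    by_cases hb : ∫ x, nrm k φ r x * dl φ x ∂μ = 0
    · refine ⟨N, s, hs, horth, fun i => ?_⟩
      refine Fin.lastCases ?_ (fun i => ?_) i
      · refine ⟨d, fun x => ?_⟩
        rw [← hu, hvr, val_eq_zero hφ hμ hrh.toIsSec hb x, zero_add]
      · exact hspan i
    · set β := ∫ x, nrm k φ r x * dl φ x ∂μ with hβ
      have hβ0 : 0 < β := by
        refine lt_of_le_of_ne ?_ (Ne.symm hb)
        exact integral_nonneg fun x => mul_nonneg (nrm_nonneg k φ r x) (dl_pos hφ x).le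
      set q : ℂ := ((Real.sqrt β : ℝ) : ℂ) with hq
      have hq0 : q ≠ 0 := by
        rw [hq]
        exact_mod_cast (Real.sqrt_pos.2 hβ0).ne'
      have hqq : q * q = (β : ℂ) := by
        rw [hq]
        exact_mod_cast Real.mul_self_sqrt hβ0.le
      have hqc : (starRingEnd ℂ) q⁻¹ = q⁻¹ := by
        rw [map_inv₀, hq, Complex.conj_ofReal]
      have h1 : bf μ φ k (q⁻¹ • r) (q⁻¹ • r) = 1 := by
        rw [bf_smul_left, bf_smul_right, hqc, bf_self, ← hβ, ← hqq]
        field_simp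
      have h2 : ∀ j, bf μ φ k (q⁻¹ • r) (s j) = 0 := fun j => by
        rw [bf_smul_left, hro, mul_zero]
      have h3 : ∀ j, bf μ φ k (s j) (q⁻¹ • r) = 0 := fun j => by
        rw [← bf_conj, h2, map_zero]
      refine ⟨N + 1, Fin.snoc (α := fun _ => Fam n M ℂ) s (q⁻¹ • r), ?_, ?_, ?_⟩
      · intro j
        refine Fin.lastCases ?_ (fun j => ?_) j
        · rw [Fin.snoc_last]
          exact hrh.smul _
        · rw [Fin.snoc_castSucc]
          exact hs j
      · intro i j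
        refine Fin.lastCases ?_ (fun i => ?_) i
        · refine Fin.lastCases ?_ (fun j => ?_) j
          · rw [Fin.snoc_last, h1, if_pos rfl]
          · rw [Fin.snoc_last, Fin.snoc_castSucc, h2, if_neg (Fin.castSucc_lt_last j).ne']
        · refine Fin.lastCases ?_ (fun j => ?_) j
          · rw [Fin.snoc_last, Fin.snoc_castSucc, h3, if_neg (Fin.castSucc_lt_last i).ne]
          · rw [Fin.snoc_castSucc, Fin.snoc_castSucc, horth]
            simp only [Fin.castSucc_inj]
      · intro i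
        refine Fin.lastCases ?_ (fun i => ?_) i
        · refine ⟨Fin.snoc (α := fun _ => ℂ) d q, fun x => ?_⟩
          rw [Fin.sum_univ_castSucc]
          simp only [Fin.snoc_castSucc, Fin.snoc_last, val_smul]
          rw [← hu, hvr]
          field_simp
          ring
        · obtain ⟨c, hc⟩ := hspan i
          refine ⟨Fin.snoc (α := fun _ => ℂ) c 0, fun x => ?_⟩
          rw [Fin.sum_univ_castSucc]
          simp only [Fin.snoc_castSucc, Fin.snoc_last, zero_mul, add_zero]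
          exact hc x

/-- norm of a combination of an orthonormal family -/
lemma norm_comb (hφ : IsPos 1 φ) (hμ : IsDens μ φ) {k : ℕ} {N : ℕ} {s : Fin N → Fam n M ℂ}
    (hs : ∀ j, IsSec k (s j)) (horth : ∀ i j, bf μ φ k (s i) (s j) = if i = j then 1 else 0)
    {t : Fam n M ℂ} (c : Fin N → ℂ) (h : ∀ x, val t x = ∑ j, c j * val (s j) x) :
    ∫ x, nrm k φ t x * dl φ x ∂μ = ∑ j, ‖c j‖ ^ 2 := by
  have h1 : bf μ φ k t t = bf μ φ k (∑ j, c j • s j) (∑ j, c j • s j) := by
    unfold bf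
    congr 1
    funext x
    rw [hp_val, hp_val, val_sum, h x]
    simp only [val_smul]
  have hsum : IsSec k (∑ j, c j • s j) := IsSec.sum _ fun j _ => (hs j).smul _
  have h2 : ∀ i, bf μ φ k (s i) (∑ j, c j • s j) = (starRingEnd ℂ) (c i) := by
    intro i
    rw [← bf_conj, bf_sum_left hφ hμ c hs (hs i)]
    simp only [horth, mul_ite, mul_one, mul_zero, Finset.sum_ite_eq', Finset.mem_univ, if_true]
  rw [bf_sum_left hφ hμ c hs hsum] at h1
  simp only [h2] at h1
  rw [bf_self] at h1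
  have h3 : ∀ j, c j * (starRingEnd ℂ) (c j) = ((‖c j‖ ^ 2 : ℝ) : ℂ) := fun j => by
    rw [Complex.mul_conj, Complex.normSq_eq_norm_sq]
  simp only [h3] at h1
  exact_mod_cast h1

end C5

open C5

variable {n : ℕ} {M : Type*} [TopologicalSpace M] [ChartedSpace (E n) M]
  [IsManifold 𝓘(ℂ, E n) ω M]
variable [CompactSpace M] [T2Space M]
variable [MeasurableSpace M] [BorelSpace M] {μ : Measure M} {φ : Fam n M ℝ}

/-- Module C5: Bergman functions -/
theorem bergman [Nonempty M] (hφ : IsPos 1 φ) (hμ : IsDens μ φ) : ∃ C > 0, ∀ ε : ℝ, 0 < ε → ε < 1 →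
    ∃ k₀ : ℕ, ∀ k ≥ k₀, ∃ (N : ℕ) (s : Fin N → Fam n M ℂ), 0 < N ∧ (∀ j, IsHol k (s j)) ∧
      (∀ i j, ∫ x, hp k φ (s i) (s j) x * (dl φ x : ℂ) ∂μ = if i = j then 1 else 0) ∧
      (∀ x, (1 - ε) * (k / Real.pi) ^ n ≤ ∑ j, nrm k φ (s j) x) ∧
      ∀ x, ∑ j, nrm k φ (s j) x ≤ C * (k : ℝ) ^ n := by
  classical
  obtain ⟨C, hC, hCle⟩ := nrm_le hφ hμ
  refine ⟨C, hC, fun ε hε hε1 => ?_⟩
  obtain ⟨k₀, hk₀⟩ := peak (μ := μ) hφ hμ (half_pos hε)
  refine ⟨max k₀ 1, fun k hk => ?_⟩
  have hk1 : 1 ≤ k := le_trans (le_max_right _ _) hk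
  have hkpos : (0 : ℝ) < k := by exact_mod_cast hk1
  have hKpos : (0 : ℝ) < (k / Real.pi) ^ n := by positivity
  choose s hs hspos hspeak using hk₀ k (le_trans (le_max_left _ _) hk)
  set U : M → Set M := fun x => {y | (1 - ε) * (k / Real.pi) ^ n *
    ∫ z, nrm k φ (s x) z * dl φ z ∂μ < nrm k φ (s x) y} with hU
  have hUo : ∀ x, IsOpen (U x) := fun x =>
    isOpen_lt continuous_const (continuous_nrm hφ.toIsWeight (hs x).toIsSec)
  have hUx : ∀ x, x ∈ U x := fun x => by
    refine lt_of_lt_of_le ?_ (hspeak x)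
    have : (1 - ε) * (k / Real.pi) ^ n < (1 - ε / 2) * (k / Real.pi) ^ n :=
      mul_lt_mul_of_pos_right (by linarith) hKpos
    exact mul_lt_mul_of_pos_right this (hspos x)
  obtain ⟨T, hT⟩ := isCompact_univ.elim_finite_subcover U hUo
    (fun x _ => mem_iUnion.2 ⟨x, hUx x⟩)
  obtain ⟨N, b, hb, horth, hspan⟩ := gs (μ := μ) hφ hμ (k := k) T.card
    (fun i => s ((T.equivFin.symm i : T) : M)) (fun i => hs _)
  have hlow : ∀ x, (1 - ε) * (k / Real.pi) ^ n ≤ ∑ j, nrm k φ (b j) x := by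
    intro x
    obtain ⟨p, hp⟩ := mem_iUnion.1 (hT (mem_univ x))
    obtain ⟨hpT, hxp⟩ := mem_iUnion.1 hp
    obtain ⟨c, hc⟩ := hspan (T.equivFin ⟨p, hpT⟩)
    simp only [Equiv.symm_apply_apply] at hc
    have hn := norm_comb (μ := μ) hφ hμ (fun j => (hb j).toIsSec) horth c hc
    have hxp' : (1 - ε) * (k / Real.pi) ^ n * ∫ z, nrm k φ (s p) z * dl φ z ∂μ <
      nrm k φ (s p) x := hxp
    have hpp := hspos p
    rw [hn] at hxp' hpp
    have hcs : nrm k φ (s p) x ≤ (∑ j, ‖c j‖ ^ 2) * ∑ j, nrm k φ (b j) x := by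
      simp only [nrm_val]
      rw [← Finset.sum_mul, ← mul_assoc]
      refine mul_le_mul_of_nonneg_right ?_ (wt_pos k φ x).le
      rw [hc x]
      have h1 : ‖∑ j, c j * val (b j) x‖ ≤ ∑ j, ‖c j‖ * ‖val (b j) x‖ :=
        (norm_sum_le _ _).trans (le_of_eq (Finset.sum_congr rfl fun j _ => norm_mul _ _))
      exact (pow_le_pow_left₀ (norm_nonneg _) h1 2).trans (Finset.sum_mul_sq_le_sq_mul_sq _ _ _)
    have h5 : (1 - ε) * (k / Real.pi) ^ n * ∑ j, ‖c j‖ ^ 2 <
        (∑ j, nrm k φ (b j) x) * ∑ j, ‖c j‖ ^ 2 := by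
      refine lt_of_lt_of_le hxp' (hcs.trans (le_of_eq (mul_comm _ _)))
    exact (lt_of_mul_lt_mul_right h5 hpp.le).le
  have hNpos : 0 < N := by
    obtain ⟨x⟩ := (inferInstance : Nonempty M)
    rcases Nat.eq_zero_or_pos N with h | h
    · subst h
      have := hlow x
      simp only [Finset.univ_eq_empty, Finset.sum_empty] at this
      have h2 : 0 < (1 - ε) * (k / Real.pi) ^ n := mul_pos (by linarith) hKpos
      linarith
    · exact h
  refine ⟨N, b, hNpos, hb, horth, hlow, fun x => ?_⟩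
  set c : Fin N → ℂ := fun j => (starRingEnd ℂ) (val (b j) x) with hc
  have ht : IsHol k (∑ j, c j • b j) := IsHol.sum _ fun j _ => (hb j).smul _
  have hv : ∀ y, val (∑ j, c j • b j) y = ∑ j, c j * val (b j) y := fun y => by
    rw [val_sum]
    simp only [val_smul]
  have hn := norm_comb (μ := μ) hφ hμ (fun j => (hb j).toIsSec) horth c hv
  have hle := hCle k hk1 _ ht x
  rw [hn] at hle
  set σ : ℝ := ∑ j, ‖c j‖ ^ 2 with hσ
  have hval : val (∑ j, c j • b j) x = (σ : ℂ) := by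
    rw [hv, hσ]
    push_cast
    refine Finset.sum_congr rfl fun j _ => ?_
    rw [hc]
    simp only
    rw [mul_comm, Complex.mul_conj, Complex.normSq_eq_norm_sq, RCLike.norm_conj]
    push_cast
    rfl
  have hσ0 : 0 ≤ σ := Finset.sum_nonneg fun j _ => sq_nonneg _
  have hnn : nrm k φ (∑ j, c j • b j) x = σ * (σ * wt k φ x) := by
    rw [nrm_val, hval, Complex.norm_real, Real.norm_of_nonneg hσ0]
    ring
  have hsum : ∑ j, nrm k φ (b j) x = σ * wt k φ x := by
    simp only [nrm_val]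
    rw [← Finset.sum_mul, hσ]
    congr 1
    refine Finset.sum_congr rfl fun j _ => ?_
    rw [hc]
    simp only
    rw [RCLike.norm_conj]
  rw [hsum]
  rw [hnn] at hle
  rcases hσ0.eq_or_lt with h | h
  · rw [← h, zero_mul]
    positivity
  · have : σ * (σ * wt k φ x) ≤ σ * (C * (k : ℝ) ^ n) := by
      calc σ * (σ * wt k φ x) ≤ C * (k : ℝ) ^ n * σ := hle
        _ = σ * (C * (k : ℝ) ^ n) := by ring
    exact le_of_mul_le_mul_left this h

end Pool.Agent.helper63.NU
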