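import Pool.Agent.helper63.NU.Defs3
import Pool.Agent.helper69.NU.A9
import Pool.Agent.helper41.NU.B2c

set_option autoImplicit false
set_option linter.all false

/-! Module Q12: the structure of the projective space on the sections of `-K`. -/

open MeasureTheory Filter Topology Set
open scoped ContDiff Manifold Matrix ENNReal ComplexOrder

noncomputable section

namespace Pool.Agent.helper63.NU

namespace Q12

section VO

variable {n : ℕ} {p : E n} {f g : E n → ℂ} {m m' : ℕ}

theorem vpos (h : VanO f p m) : ∃ K : ℝ, 0 ≤ K ∧ ∀ᶠ y in 𝓝 p, ‖f y‖ ≤ K * ‖y - p‖ ^ m := by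
  obtain ⟨K, hK⟩ := h
  refine ⟨|K|, abs_nonneg K, ?_⟩
  filter_upwards [hK] with y hy
  exact hy.trans (mul_le_mul_of_nonneg_right (le_abs_self K) (by positivity))

theorem vcongr (h : VanO f p m) (hfg : f =ᶠ[𝓝 p] g) : VanO g p m := by
  obtain ⟨K, hK⟩ := h
  exact ⟨K, by filter_upwards [hK, hfg] with y h1 h2; rw [← h2]; exact h1⟩

theorem vmul (hf : VanO f p m) (hg : VanO g p m') : VanO (fun y => f y * g y) p (m + m') := by
  obtain ⟨K, hK0, hK⟩ := vpos hf
  obtain ⟨K', hK0', hK'⟩ := vpos hg
  refine ⟨K * K', ?_⟩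
  filter_upwards [hK, hK'] with y h1 h2
  rw [norm_mul, pow_add]
  calc ‖f y‖ * ‖g y‖ ≤ (K * ‖y - p‖ ^ m) * (K' * ‖y - p‖ ^ m') :=
        mul_le_mul h1 h2 (norm_nonneg _) (by positivity)
    _ = K * K' * (‖y - p‖ ^ m * ‖y - p‖ ^ m') := by ring

theorem vadd (hf : VanO f p m) (hg : VanO g p m) : VanO (fun y => f y + g y) p m := by
  obtain ⟨K, hK⟩ := hf
  obtain ⟨K', hK'⟩ := hg
  refine ⟨K + K', ?_⟩
  filter_upwards [hK, hK'] with y h1 h2
  rw [add_mul]
  exact (norm_add_le _ _).trans (add_le_add h1 h2)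

theorem vneg (hf : VanO f p m) : VanO (fun y => -f y) p m := by
  obtain ⟨K, hK⟩ := hf
  exact ⟨K, by filter_upwards [hK] with y h1; rwa [norm_neg]⟩

theorem vsub (hf : VanO f p m) (hg : VanO g p m) : VanO (fun y => f y - g y) p m := by
  have := vadd hf (vneg hg)
  exact vcongr this (Eventually.of_forall fun y => (sub_eq_add_neg _ _).symm)

theorem vmono (hf : VanO f p m) (h : m' ≤ m) : VanO f p m' := by
  obtain ⟨K, hK0, hK⟩ := vpos hf
  refine ⟨K, ?_⟩
  have h1 : ∀ᶠ y in 𝓝 p, ‖y - p‖ ≤ 1 := by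
    filter_upwards [Metric.ball_mem_nhds p one_pos] with y hy
    rw [← dist_eq_norm]; exact (Metric.mem_ball.1 hy).le
  filter_upwards [hK, h1] with y h2 h3
  exact h2.trans (mul_le_mul_of_nonneg_left (pow_le_pow_of_le_one (norm_nonneg _) h3 h) hK0)

theorem vzero : VanO (fun _ : E n => (0 : ℂ)) p m :=
  ⟨0, Eventually.of_forall fun y => by simp⟩

theorem vsum {ι : Type*} (s : Finset ι) (F : ι → E n → ℂ) (h : ∀ i ∈ s, VanO (F i) p m) :
    VanO (fun y => ∑ i ∈ s, F i y) p m := by
  classical
  induction s using Finset.induction_on with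
  | empty => simpa using vzero
  | insert a s ha ih =>
    have h1 := vadd (h a (Finset.mem_insert_self a s))
      (ih fun i hi => h i (Finset.mem_insert_of_mem hi))
    exact vcongr h1 (Eventually.of_forall fun y =>
      (Finset.sum_insert (f := fun i => F i y) ha).symm)

theorem vconst (c : ℂ) (hf : VanO f p m) : VanO (fun y => c * f y) p m := by
  obtain ⟨K, hK⟩ := hf
  refine ⟨‖c‖ * K, ?_⟩
  filter_upwards [hK] with y h1
  rw [norm_mul, mul_assoc]
  exact mul_le_mul_of_nonneg_left h1 (norm_nonneg _)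

theorem vcoord (i : Fin n) : VanO (fun y : E n => y i - p i) p 1 :=
  ⟨1, Eventually.of_forall fun y => by
    rw [pow_one, one_mul]
    exact norm_le_pi_norm (y - p) i⟩

theorem vone : VanO (fun _ : E n => (1 : ℂ)) p 0 := ⟨1, Eventually.of_forall fun y => by simp⟩

/-- products of functions close to the coordinates -/
theorem vprod {m : ℕ} (F G : Fin m → E n → ℂ) (hG : ∀ j, VanO (G j) p 1)
    (hFG : ∀ j, VanO (fun y => F j y - G j y) p 2) :
    VanO (fun y => ∏ j, F j y) p m ∧ VanO (fun y => ∏ j, F j y - ∏ j, G j y) p (m + 1) := by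
  induction m with
  | zero =>
    refine ⟨by simpa using vone, ?_⟩
    simpa using vzero
  | succ m ih =>
    obtain ⟨h1, h2⟩ := ih (fun j => F j.succ) (fun j => G j.succ) (fun j => hG _) (fun j => hFG _)
    have h3 : VanO (F 0) p 1 := by
      have := vadd (vmono (hFG 0) one_le_two) (hG 0)
      exact vcongr this (Eventually.of_forall fun y => sub_add_cancel _ _)
    have h4 : VanO (fun y => F 0 y * ∏ j : Fin m, F j.succ y) p (m + 1) := by
      have := vmul h3 h1
      rwa [Nat.add_comm 1 m] at this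
    have h5 : VanO (fun y => (F 0 y - G 0 y) * ∏ j : Fin m, F j.succ y) p (m + 1 + 1) := by
      have := vmul (hFG 0) h1
      rwa [show 2 + m = m + 1 + 1 by ring] at this
    have h6 : VanO (fun y => G 0 y * (∏ j : Fin m, F j.succ y - ∏ j : Fin m, G j.succ y)) p
        (m + 1 + 1) := by
      have := vmul (hG 0) h2
      rwa [show 1 + (m + 1) = m + 1 + 1 by ring] at this
    refine ⟨vcongr h4 (Eventually.of_forall fun y =>
      (Fin.prod_univ_succ (fun j => F j y)).symm), ?_⟩
    refine vcongr (vadd h5 h6) (Eventually.of_forall fun y => ?_)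
    simp only [Fin.prod_univ_succ]
    ring

theorem vpow_one (h : VanO (fun y => g y - 1) p 2) (l : ℕ) :
    VanO (fun y => g y ^ l - 1) p 1 := by
  induction l with
  | zero => simpa using vzero
  | succ l ih =>
    have h0 : VanO (fun y => g y ^ l) p 0 :=
      vcongr (vadd (vmono ih (Nat.zero_le 1)) vone)
        (Eventually.of_forall fun y => sub_add_cancel _ _)
    have h1 := vmul h0 (vmono h one_le_two)
    rw [zero_add] at h1
    refine vcongr (vadd h1 ih) (Eventually.of_forall fun y => ?_)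
    ring

theorem vpow (h : VanO f p m) (l : ℕ) : VanO (fun y => f y ^ l) p (l * m) := by
  induction l with
  | zero => simpa using vone
  | succ l ih =>
    have := vmul ih h
    rw [show (l + 1) * m = l * m + m by ring]
    exact vcongr this (Eventually.of_forall fun y => (pow_succ _ _).symm)

theorem veval (h : VanO f p (m + 1)) : f p = 0 := by
  obtain ⟨K, hK⟩ := h
  have := hK.self_of_nhds
  rw [sub_self, norm_zero, zero_pow (Nat.succ_ne_zero m), mul_zero] at this
  exact norm_le_zero_iff.1 this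

end VO

section HA

variable {n : ℕ} {p : E n} {f g : E n → ℂ} {m : ℕ}

theorem hcongr (h : HolAt f p) (hfg : f =ᶠ[𝓝 p] g) : HolAt g p := by
  have h2 : ∀ᶠ y in 𝓝 p, f =ᶠ[𝓝 y] g := hfg.eventually_nhds
  filter_upwards [h, h2] with y h1 h3
  exact h1.congr_of_eventuallyEq (EventuallyEq.symm h3)

theorem hmul (hf : HolAt f p) (hg : HolAt g p) : HolAt (fun y => f y * g y) p := by
  filter_upwards [hf, hg] with y h1 h2
  exact h1.mul h2

theorem hsub (hf : HolAt f p) (hg : HolAt g p) : HolAt (fun y => f y - g y) p := by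
  filter_upwards [hf, hg] with y h1 h2
  exact h1.sub h2

theorem hpow (hf : HolAt f p) (l : ℕ) : HolAt (fun y => f y ^ l) p := by
  filter_upwards [hf] with y h1
  exact h1.pow l

theorem hprod {ι : Type*} (s : Finset ι) {F : ι → E n → ℂ} (h : ∀ i ∈ s, HolAt (F i) p) :
    HolAt (fun y => ∏ i ∈ s, F i y) p := by
  classical
  induction s using Finset.induction_on with
  | empty =>
    simp only [Finset.prod_empty]
    exact Eventually.of_forall fun y => differentiableAt_const _
  | insert a s ha ih =>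
    have h1 := hmul (h a (Finset.mem_insert_self a s))
      (ih fun i hi => h i (Finset.mem_insert_of_mem hi))
    exact hcongr h1 (Eventually.of_forall fun y =>
      (Finset.prod_insert (f := fun i => F i y) ha).symm)

theorem hvan (h : HolAt f p) : VanO f p 0 := by
  have hc : ContinuousAt f p := h.self_of_nhds.continuousAt
  have h1 : ∀ᶠ y in 𝓝 p, ‖f y‖ < ‖f p‖ + 1 :=
    hc.norm.eventually_lt continuousAt_const (by simp)
  refine ⟨‖f p‖ + 1, ?_⟩
  filter_upwards [h1] with y hy
  rw [pow_zero, mul_one]; exact hy.le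

theorem hana (h : HolAt f p) : AnalyticAt ℂ f p := by
  obtain ⟨r, hr, hball⟩ := Metric.eventually_nhds_iff_ball.1 h
  have hd : DifferentiableOn ℂ f (Metric.ball p r) := fun y hy =>
    (hball y hy).differentiableWithinAt
  exact osgood Metric.isOpen_ball hd p (Metric.mem_ball_self hr)

/-- the leading form -/
theorem taylor (hf : HolAt f p) (hm : VanO f p m) :
    ∃ c : (Fin m → Fin n) → ℂ,
      VanO (fun y => f y - ∑ r : Fin m → Fin n, c r * ∏ j, (y (r j) - p (r j))) p (m + 1) := by
  obtain ⟨P, hP⟩ := hana hf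
  have hf0 : (fun y : E n => f (p + y)) =O[𝓝 0] fun y => ‖y‖ ^ m := by
    obtain ⟨K, hK⟩ := hm
    refine Asymptotics.IsBigO.of_bound K ?_
    have ht : Tendsto (fun y : E n => p + y) (𝓝 0) (𝓝 p) := by
      have : Continuous fun y : E n => p + y := by fun_prop
      simpa using this.tendsto 0
    filter_upwards [ht.eventually hK] with y hy
    rw [add_sub_cancel_left] at hy
    rw [norm_pow, norm_norm]
    exact hy
  have hpow : ∀ a b : ℕ, a ≤ b → (fun y : E n => ‖y‖ ^ b) =O[𝓝 0] fun y : E n => ‖y‖ ^ a := by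
    intro a b hab
    refine Asymptotics.IsBigO.of_bound 1 ?_
    filter_upwards [Metric.ball_mem_nhds (0 : E n) one_pos] with y hy
    rw [mem_ball_zero_iff] at hy
    rw [norm_pow, norm_pow, norm_norm, one_mul]
    exact pow_le_pow_of_le_one (norm_nonneg _) hy.le hab
  have hlow : ∀ k, k < m → ∀ y : E n, (P k fun _ => y) = 0 := by
    intro k
    induction k using Nat.strong_induction_on with
    | _ k ih =>
      intro hk
      have hps : P.partialSum (k + 1) = fun y => P k fun _ => y := by
        funext z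
        refine Finset.sum_eq_single _ (fun b hb hnb => ?_) fun hn => ?_
        · have := Finset.mem_range_succ_iff.mp hb
          exact ih b (this.lt_of_ne hnb) (lt_of_le_of_lt this hk) z
        · exact False.elim (hn (Finset.mem_range.mpr (lt_add_one k)))
      have h1 := hP.isBigO_sub_partialSum_pow (k + 1)
      rw [hps] at h1
      have h2 := (hf0.trans (hpow (k + 1) m hk)).sub h1
      have h3 : (fun y : E n => P k fun _ => y) =O[𝓝 0] fun y => ‖y‖ ^ (k + 1) := by
        refine h2.congr_left fun y => ?_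
        ring
      exact h3.continuousMultilinearMap_apply_eq_zero
  have hps : P.partialSum (m + 1) = fun y => P m fun _ => y := by
    funext z
    refine Finset.sum_eq_single _ (fun b hb hnb => ?_) fun hn => ?_
    · have := Finset.mem_range_succ_iff.mp hb
      exact hlow b (this.lt_of_ne hnb) z
    · exact False.elim (hn (Finset.mem_range.mpr (lt_add_one m)))
  have h1 := hP.isBigO_sub_partialSum_pow (m + 1)
  rw [hps] at h1
  refine ⟨fun r => P m fun j => Pi.single (r j) 1, ?_⟩
  have hexp : ∀ y : E n, (P m fun _ => y) =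
      ∑ r : Fin m → Fin n, (P m fun j => Pi.single (r j) 1) * ∏ j, y (r j) := by
    intro y
    have hy : y = ∑ i, y i • (Pi.single i 1 : E n) := by
      funext a
      simp [Finset.sum_apply, Pi.single_apply]
    conv_lhs => rw [hy]
    rw [ContinuousMultilinearMap.map_sum]
    refine Finset.sum_congr rfl fun r _ => ?_
    rw [ContinuousMultilinearMap.map_smul_univ (P m) (fun j => y (r j))
      (fun j => (Pi.single (r j) 1 : E n)), smul_eq_mul, mul_comm]
  obtain ⟨K, hK⟩ := h1.bound
  refine ⟨K, ?_⟩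
  have ht : Tendsto (fun y : E n => y - p) (𝓝 p) (𝓝 0) := by
    have : Continuous fun y : E n => y - p := by fun_prop
    simpa using this.tendsto p
  filter_upwards [ht.eventually hK] with y hy
  rw [add_sub_cancel, norm_pow, norm_norm, hexp] at hy
  exact hy

/-- cancellation of a power of a coordinate -/
theorem cancel (hn : 0 < n) {X h : E n → ℂ} {N : ℕ} (hX : HolAt X p) (hh : HolAt h p)
    (hX1 : VanO (fun y => X y - (y ⟨0, hn⟩ - p ⟨0, hn⟩)) p 2)
    (h0 : ∀ᶠ y in 𝓝 p, X y ^ N * h y = 0) : ∀ᶠ y in 𝓝 p, h y = 0 := by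
  obtain ⟨r, hr, hball⟩ := Metric.eventually_nhds_iff_ball.1 (hX.and (hh.and h0))
  have hXd : DifferentiableOn ℂ X (Metric.ball p r) := fun y hy =>
    (hball y hy).1.differentiableWithinAt
  have hXa := osgood Metric.isOpen_ball hXd
  have hXne : ¬ ∀ᶠ y in 𝓝 p, X y = 0 := by
    intro hz
    obtain ⟨K, hK0, hK⟩ := vpos hX1
    obtain ⟨δ, hδ, hb⟩ := Metric.eventually_nhds_iff_ball.1 (hz.and hK)
    set t : ℝ := min (δ / 2) (1 / (2 * (K + 1))) with ht
    have ht0 : 0 < t := by positivity
    have ht1 : t ≤ δ / 2 := min_le_left _ _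
    have ht2 : t ≤ 1 / (2 * (K + 1)) := min_le_right _ _
    set y : E n := p + Pi.single ⟨0, hn⟩ (t : ℂ) with hy
    have hyp : ‖y - p‖ = t := by
      rw [hy, add_sub_cancel_left, Pi.norm_single, Complex.norm_real, Real.norm_of_nonneg ht0.le]
    have hyb : y ∈ Metric.ball p δ := by
      rw [Metric.mem_ball, dist_eq_norm, hyp]; linarith
    obtain ⟨h1, h2⟩ := hb y hyb
    have h3 : y ⟨0, hn⟩ - p ⟨0, hn⟩ = (t : ℂ) := by
      simp [hy]
    rw [h1, h3, zero_sub, norm_neg, Complex.norm_real, Real.norm_of_nonneg ht0.le, hyp] at h2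
    have h4 : 1 ≤ K * t := by
      have : t * 1 ≤ t * (K * t) := by nlinarith
      exact le_of_mul_le_mul_left this ht0
    have h5 : K * t ≤ K * (1 / (2 * (K + 1))) := mul_le_mul_of_nonneg_left ht2 hK0
    have h6 : K * (1 / (2 * (K + 1))) < 1 := by
      rw [mul_one_div, div_lt_one (by positivity)]
      linarith
    linarith
  have hdense : ∀ y ∈ Metric.ball p r, ∃ᶠ z in 𝓝 y, X z ≠ 0 := by
    intro y hy hz
    simp only [ne_eq, not_not] at hz
    apply hXne
    have h1 := hXa.eqOn_zero_of_preconnected_of_eventuallyEq_zero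
      (convex_ball p r).isPreconnected hy hz
    filter_upwards [Metric.ball_mem_nhds p hr] with z hz'
    exact h1 hz'
  filter_upwards [Metric.ball_mem_nhds p hr] with y hy
  by_contra hne
  have hc : ContinuousAt h y := (hball y hy).2.1.continuousAt
  have h1 : ∀ᶠ z in 𝓝 y, h z ≠ 0 := hc.eventually_ne hne
  have h2 : ∀ᶠ z in 𝓝 y, z ∈ Metric.ball p r := Metric.isOpen_ball.mem_nhds hy
  obtain ⟨z, hz1, hz2, hz3⟩ := ((hdense y hy).and_eventually (h1.and h2)).exists
  have h3 := (hball z hz3).2.2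
  rcases mul_eq_zero.1 h3 with h4 | h4
  · exact hz1 (eq_zero_of_pow_eq_zero h4)
  · exact hz2 h4

end HA

section Words

/-- counts of the letters of a word -/
def cnt {ι : Type*} [DecidableEq ι] {d : ℕ} (wd : Fin d → ι) (i : ι) : ℕ :=
  (Finset.univ.filter fun j => wd j = i).card

theorem cnt_sum {ι : Type*} [DecidableEq ι] [Fintype ι] {d : ℕ} (wd : Fin d → ι) :
    ∑ i, cnt wd i = d := by
  unfold cnt
  rw [← Finset.card_eq_sum_card_fiberwise (f := wd) (s := Finset.univ) (t := Finset.univ)
    (fun _ _ => Finset.mem_coe.2 (Finset.mem_univ _))]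
  simp

theorem prod_cnt {ι : Type*} [DecidableEq ι] [Fintype ι] {R : Type*} [CommMonoid R] {d : ℕ}
    (wd : Fin d → ι) (F : ι → R) : ∏ i, F i ^ cnt wd i = ∏ j, F (wd j) := by
  unfold cnt
  rw [← Finset.prod_fiberwise (s := Finset.univ) (g := wd) (f := fun j => F (wd j))]
  refine Finset.prod_congr rfl fun i _ => ?_
  rw [Finset.prod_congr rfl (g := fun _ => F i), Finset.prod_const]
  intro j hj
  rw [(Finset.mem_filter.1 hj).2]

theorem exists_word {ι : Type*} [DecidableEq ι] [Fintype ι] {d : ℕ} (α : ι → ℕ)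
    (h : ∑ i, α i = d) : ∃ wd : Fin d → ι, cnt wd = α := by
  classical
  set S : Multiset ι := ∑ i, Multiset.replicate (α i) i with hS
  have hcard : S.card = d := by
    rw [hS, Multiset.card_sum, ← h]
    simp
  have hlen : S.toList.length = d := by rw [Multiset.length_toList, hcard]
  refine ⟨fun j => S.toList.get (Fin.cast hlen.symm j), ?_⟩
  funext i
  have h1 : S.count i = α i := by
    rw [hS, Multiset.count_sum']
    simp [Multiset.count_replicate]
  have h2 : S = (Finset.univ : Finset (Fin d)).val.map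
      (fun j => S.toList.get (Fin.cast hlen.symm j)) := by
    subst hlen
    have e : (S.toList : Multiset ι) = S := S.coe_toList
    rw [Fin.univ_val_map]
    have e2 : List.ofFn (fun j => S.toList.get (Fin.cast rfl j)) = S.toList :=
      List.ofFn_get S.toList
    exact e.symm.trans (congrArg _ e2.symm)
  unfold cnt
  rw [← h1]
  conv_rhs => rw [h2]
  rw [Multiset.count_map]
  simp only [Finset.card_def, Finset.filter_val, eq_comm]

end Words

section Sec

variable {n : ℕ} {M : Type*} [TopologicalSpace M] [ChartedSpace (E n) M]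
  [IsManifold 𝓘(ℂ, E n) ω M]

theorem mul_mem' {k l : ℕ} {s t : Fam n M ℂ} (hs : s ∈ H0 n M k) (ht : t ∈ H0 n M l) :
    s * t ∈ H0 n M (k + l) := by
  obtain ⟨hs1, hs2⟩ := hs
  obtain ⟨ht1, ht2⟩ := ht
  refine ⟨⟨⟨fun e he => (hs1.smooth e he).mul (ht1.smooth e he), fun e he e' he' x hx => ?_⟩,
    fun e he => (hs1.hol e he).mul (ht1.hol e he)⟩, fun e y h => ?_⟩
  · simp only [Pi.mul_apply, hs1.trans e he e' he' x hx, ht1.trans e he e' he' x hx, pow_add]
    ring
  · simp only [Pi.mul_apply, hs2 e y h, zero_mul]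

theorem prod_mem' {k : ℕ} : ∀ (m : ℕ) (t : Fin (m + 1) → Fam n M ℂ), (∀ j, t j ∈ H0 n M k) →
    ∏ j, t j ∈ H0 n M ((m + 1) * k)
  | 0, t, h => by simpa using h 0
  | m + 1, t, h => by
    rw [Fin.prod_univ_succ]
    have := mul_mem' (h 0) (prod_mem' m (fun j => t j.succ) (fun j => h _))
    rwa [show (m + 1 + 1) * k = k + (m + 1) * k by ring]

theorem pow_mem' {k : ℕ} {s : Fam n M ℂ} (hs : s ∈ H0 n M k) {l : ℕ} (hl : 1 ≤ l) :
    s ^ l ∈ H0 n M (l * k) := by
  obtain ⟨l, rfl⟩ : ∃ l', l = l' + 1 := ⟨l - 1, by omega⟩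
  have := prod_mem' l (fun _ => s) (fun _ => hs)
  simpa using this

theorem eq_zero' [ConnectedSpace M] {k : ℕ} {s : Fam n M ℂ} (hs : s ∈ H0 n M k) {e : Ch n M}
    (he : e ∈ atlas (E n) M) {p : E n} (hp : p ∈ e.target) (h : ∀ᶠ y in 𝓝 p, s e y = 0) :
    s = 0 := by
  obtain ⟨V, hV, hVo, hpV⟩ := eventually_nhds_iff.1 (h.and (e.open_target.mem_nhds hp))
  have h1 := hs.1.eq_zero he hVo ⟨p, hpV⟩ (fun y hy => (hV y hy).2) (fun y hy => (hV y hy).1)
  funext e' y
  by_cases hc : e' ∈ atlas (E n) M ∧ y ∈ e'.target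
  · exact h1 e' hc.1 y hc.2
  · exact hs.2 e' y hc

theorem eq_of_germ [ConnectedSpace M] {k : ℕ} {s t : Fam n M ℂ} (hs : s ∈ H0 n M k)
    (ht : t ∈ H0 n M k) {e : Ch n M}
    (he : e ∈ atlas (E n) M) {p : E n} (hp : p ∈ e.target)
    (h : ∀ᶠ y in 𝓝 p, s e y = t e y) : s = t := by
  rw [← sub_eq_zero]
  refine eq_zero' (sub_mem hs ht) he hp ?_
  filter_upwards [h] with y hy
  rw [Pi.sub_apply, Pi.sub_apply, hy, sub_self]

theorem hol' {k : ℕ} {s : Fam n M ℂ} (hs : s ∈ H0 n M k) {e : Ch n M}
    (he : e ∈ atlas (E n) M) {p : E n} (hp : p ∈ e.target) : HolAt (s e) p := by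
  filter_upwards [e.open_target.mem_nhds hp] with y hy
  exact (hs.1.hol e he).differentiableAt (e.open_target.mem_nhds hy)

theorem prod_apply' {ι : Type*} (s : Finset ι) (F : ι → Fam n M ℂ) (e : Ch n M) (y : E n) :
    (∏ i ∈ s, F i) e y = ∏ i ∈ s, F i e y := by
  rw [Finset.prod_apply, Finset.prod_apply]

theorem sum_apply' {ι : Type*} (s : Finset ι) (F : ι → Fam n M ℂ) (e : Ch n M) (y : E n) :
    (∑ i ∈ s, F i) e y = ∑ i ∈ s, F i e y := by
  rw [Finset.sum_apply, Finset.sum_apply]

end Sec

end Q12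

open Q12 in
/-- the structure of the projective space on the sections of `-K`: `z α = ∏ g_i^{α_i}` -/
theorem z_sections {n : ℕ} {M : Type*} [TopologicalSpace M] [ChartedSpace (E n) M]
    [IsManifold 𝓘(ℂ, E n) ω M] [CompactSpace M] [T2Space M] [ConnectedSpace M]
    (hn : 0 < n) (hJ : JetsIso n M) {e : Ch n M} (he : e ∈ atlas (E n) M)
    {p : E n} (hp : p ∈ e.target)
    (hy : ∃ (X : E n → ℂ) (g : Fin (n + 1) → E n → ℂ), HolAt X p ∧
      VanO (fun y => X y - (y ⟨0, hn⟩ - p ⟨0, hn⟩)) p 2 ∧ (∀ i, HolAt (g i) p) ∧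
      VanO (fun y => g 0 y - 1) p 2 ∧ (∀ j : Fin n, VanO (fun y => g j.succ y - (y j - p j)) p 2) ∧
      (∃ f ∈ H0 n M 1, ∀ᶠ y in 𝓝 p, f e y = X y ^ (n + 1)) ∧
      ∀ i, ∃ s ∈ H0 n M 1, ∀ᶠ y in 𝓝 p, s e y = X y ^ n * g i y) :
    ∃ z : (Fin (n + 1) → ℕ) → Fam n M ℂ,
      (∀ α, ∑ i, α i = n + 1 → z α ∈ H0 n M 1) ∧
      /- relations -/
      (∀ α β α' β', ∑ i, α i = n + 1 → ∑ i, β i = n + 1 → ∑ i, α' i = n + 1 → ∑ i, β' i = n + 1 →
        α + β = α' + β' → z α * z β = z α' * z β') ∧
      /- no base points -/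
      (∀ e ∈ atlas (E n) M, ∀ y ∈ e.target, ∃ i : Fin (n + 1), z ((n + 1) • Pi.single i 1) e y ≠ 0) ∧
      /- generation -/
      (∀ k : ℕ, 1 ≤ k → H0 n M k ≤ Submodule.span ℂ
        {s | ∃ α : Fin k → Fin (n + 1) → ℕ, (∀ l, ∑ i, α l i = n + 1) ∧ s = ∏ l, z (α l)}) ∧
      /- immersion: where `z_{(n+1)e_i}` does not vanish the quotients
      `w_j = z_{n e_i + e_j} / z_{(n+1) e_i}` are local coordinates -/
      (∀ e ∈ atlas (E n) M, ∀ y ∈ e.target, ∀ i : Fin (n + 1),
        z ((n + 1) • Pi.single i 1) e y ≠ 0 → ∀ v : E n,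
        (∀ j : Fin (n + 1), fderiv ℂ (fun y' => z (n • Pi.single i 1 + Pi.single j 1) e y' /
          z ((n + 1) • Pi.single i 1) e y') y v = 0) → v = 0) := by
  classical
  obtain ⟨X, g, hX, hX1, hg, hg0, hg1, ⟨f, hf, hfX⟩, hs⟩ := hy
  choose sec hsec hsecX using hs
  have hGhol : ∀ α : Fin (n + 1) → ℕ, HolAt (fun y => ∏ i, g i y ^ α i) p := fun α =>
    hprod _ (fun i _ => hpow (hg i) _)
  choose z hz hzv using fun α => (hJ 1 le_rfl e he p hp).2 _ (hGhol α)
  have hXv : VanO X p 1 := by
    have := vadd (vmono hX1 one_le_two) (vcoord (p := p) ⟨0, hn⟩)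
    exact vcongr this (Eventually.of_forall fun y => sub_add_cancel _ _)
  -- exactness
  have hzG : ∀ α, ∑ i, α i = n + 1 → ∀ᶠ y in 𝓝 p, z α e y = ∏ i, g i y ^ α i := by
    intro α hα
    obtain ⟨wd, rfl⟩ := exists_word α hα
    have hS : ∏ j, sec (wd j) ∈ H0 n M ((n + 1) * 1) := prod_mem' n _ (fun j => hsec _)
    have hT : f ^ n * z (cnt wd) ∈ H0 n M ((n + 1) * 1) := by
      have := mul_mem' (pow_mem' hf (l := n) hn) (hz (cnt wd))
      rwa [show n * 1 + 1 = (n + 1) * 1 by ring] at this
    have hD : ∀ᶠ y in 𝓝 p, (∏ j, sec (wd j) - f ^ n * z (cnt wd) : Fam n M ℂ) e y =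
        X y ^ (n * (n + 1)) * -(z (cnt wd) e y - ∏ i, g i y ^ cnt wd i) := by
      filter_upwards [hfX, eventually_all.2 hsecX] with y h1 h2
      rw [Pi.sub_apply, Pi.sub_apply, prod_apply', Pi.mul_apply, Pi.mul_apply, Pi.pow_apply,
        Pi.pow_apply, h1, prod_cnt]
      rw [Finset.prod_congr rfl fun j _ => h2 (wd j), Finset.prod_mul_distrib, Finset.prod_const,
        Finset.card_univ, Fintype.card_fin, ← pow_mul, ← pow_mul]
      ring
    have hv : VanO ((∏ j, sec (wd j) - f ^ n * z (cnt wd) : Fam n M ℂ) e) p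
        ((n + 1) * (n + 1) + 1) := by
      have h1 := vmul (vpow hXv (n * (n + 1))) (vneg (hzv (cnt wd)))
      rw [show n * (n + 1) * 1 + ((n + 1) * 1 + 1) = (n + 1) * (n + 1) + 1 by ring] at h1
      refine vcongr h1 ?_
      filter_upwards [hD] with y hy
      exact hy.symm
    have h0 := (hJ (n + 1) (by omega) e he p hp).1 _
      (by have := sub_mem hS hT; rwa [mul_one] at this) hv
    have h1 : ∀ᶠ y in 𝓝 p, X y ^ (n * (n + 1)) *
        -(z (cnt wd) e y - ∏ i, g i y ^ cnt wd i) = 0 := by
      filter_upwards [hD] with y hy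
      rw [← hy, h0]; rfl
    have h2 := cancel hn hX (h := fun y => -(z (cnt wd) e y - ∏ i, g i y ^ cnt wd i)) (by
      have := hsub (hGhol (cnt wd)) (hol' (hz (cnt wd)) he hp)
      exact hcongr this (Eventually.of_forall fun y => by ring)) hX1 h1
    filter_upwards [h2] with y hy
    rw [neg_eq_zero, sub_eq_zero] at hy
    exact hy
  -- germs of products of the `z`
  have hcnt : ∀ wd : Fin (n + 1) → Fin (n + 1), ∀ᶠ y in 𝓝 p,
      z (cnt wd) e y = ∏ j, g (wd j) y := by
    intro wd
    filter_upwards [hzG (cnt wd) (cnt_sum wd)] with y hy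
    rw [hy, prod_cnt]
  have hsingle : ∀ i : Fin (n + 1), ∑ a, ((n + 1) • Pi.single i 1 : Fin (n + 1) → ℕ) a = n + 1 := by
    intro i
    simp [← Finset.mul_sum, Finset.sum_pi_single']
  have hpair : ∀ i j : Fin (n + 1),
      ∑ a, (n • Pi.single i 1 + Pi.single j 1 : Fin (n + 1) → ℕ) a = n + 1 := by
    intro i j
    simp [Finset.sum_add_distrib, ← Finset.mul_sum, Finset.sum_pi_single']
  have hGs : ∀ (i : Fin (n + 1)) (y : E n),
      ∏ a, g a y ^ ((n + 1) • Pi.single i 1 : Fin (n + 1) → ℕ) a = g i y ^ (n + 1) := by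
    intro i y
    rw [Finset.prod_eq_single i]
    · simp
    · intro b _ hb
      simp [Pi.single_apply, hb]
    · intro h; exact absurd (Finset.mem_univ i) h
  have hGp : ∀ (i j : Fin (n + 1)) (y : E n),
      ∏ a, g a y ^ (n • Pi.single i 1 + Pi.single j 1 : Fin (n + 1) → ℕ) a
        = g i y ^ n * g j y := by
    intro i j y
    simp only [Pi.add_apply, pow_add, Finset.prod_mul_distrib]
    congr 1
    · rw [Finset.prod_eq_single i]
      · simp
      · intro b _ hb
        simp [Pi.single_apply, hb]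
      · intro h; exact absurd (Finset.mem_univ i) h
    · rw [Finset.prod_eq_single j]
      · simp
      · intro b _ hb
        simp [Pi.single_apply, hb]
      · intro h; exact absurd (Finset.mem_univ j) h
  -- generation
  have hgen : ∀ k : ℕ, 1 ≤ k → H0 n M k ≤ Submodule.span ℂ
        {s | ∃ α : Fin k → Fin (n + 1) → ℕ, (∀ l, ∑ i, α l i = n + 1) ∧ s = ∏ l, z (α l)} := by
    intro k hk
    -- sections with prescribed leading monomial
    have hZ : ∀ m, m ≤ k * (n + 1) → ∀ r : Fin m → Fin n, ∃ Z ∈ H0 n M k,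
        Z ∈ {s | ∃ α : Fin k → Fin (n + 1) → ℕ, (∀ l, ∑ i, α l i = n + 1) ∧
          s = ∏ l, z (α l)} ∧
        VanO (fun y => Z e y - ∏ j, (y (r j) - p (r j))) p (m + 1) := by
      intro m hm r
      set Wf : ℕ → Fin (n + 1) := fun i => if h : i < m then (r ⟨i, h⟩).succ else 0 with hWf
      set wd : Fin k → Fin (n + 1) → Fin (n + 1) := fun l j =>
        Wf ((finProdFinEquiv (l, j) : Fin (k * (n + 1))) : ℕ) with hwd
      have hZe : ∀ᶠ y in 𝓝 p, (∏ l, z (cnt (wd l)) : Fam n M ℂ) e y =
          (∏ j : Fin m, g (r j).succ y) * g 0 y ^ (k * (n + 1) - m) := by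
        filter_upwards [eventually_all.2 fun l => hcnt (wd l)] with y h2
        rw [prod_apply', Finset.prod_congr rfl fun l _ => h2 l, ← Fintype.prod_prod_type']
        rw [← Equiv.prod_comp finProdFinEquiv.symm]
        have e1 : ∀ i : Fin (k * (n + 1)),
            g (wd (finProdFinEquiv.symm i).1 (finProdFinEquiv.symm i).2) y = g (Wf i) y := by
          intro i
          simp only [hwd, Prod.mk.eta, Equiv.apply_symm_apply]
        rw [Finset.prod_congr rfl fun i _ => e1 i]
        rw [← Finset.prod_range (fun i => g (Wf i) y)]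
        conv_lhs => rw [show k * (n + 1) = m + (k * (n + 1) - m) by omega]
        rw [Finset.prod_range_add]
        congr 1
        · rw [Finset.prod_range]
          refine Finset.prod_congr rfl fun j _ => ?_
          simp [hWf]
        · rw [Finset.prod_congr rfl (g := fun _ => g 0 y), Finset.prod_const, Finset.card_range]
          intro j _
          simp [hWf]
      refine ⟨∏ l, z (cnt (wd l)), ?_, ⟨fun l => cnt (wd l), fun l => cnt_sum _, rfl⟩, ?_⟩
      · obtain ⟨k', rfl⟩ : ∃ k', k = k' + 1 := ⟨k - 1, by omega⟩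
        have := prod_mem' k' (fun l => z (cnt (wd l))) (fun l => hz _)
        rwa [mul_one] at this
      · obtain ⟨h1, h2⟩ := vprod (fun j : Fin m => g (r j).succ)
          (fun j : Fin m => fun y => y (r j) - p (r j)) (fun j => vcoord _) (fun j => hg1 _)
        have h3 := vmul h1 (vpow_one hg0 (k * (n + 1) - m))
        refine vcongr (vadd h3 h2) ?_
        filter_upwards [hZe] with y hy
        rw [hy]
        ring
    have key : ∀ q m, m + q = k * (n + 1) + 1 → ∀ h ∈ H0 n M k, VanO (h e) p m →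
        h ∈ Submodule.span ℂ
        {s | ∃ α : Fin k → Fin (n + 1) → ℕ, (∀ l, ∑ i, α l i = n + 1) ∧ s = ∏ l, z (α l)} := by
      intro q
      induction q with
      | zero =>
        intro m hm h hh hv
        have h0 : h = 0 := (hJ k hk e he p hp).1 h hh (by
          rw [show (n + 1) * k + 1 = m by rw [mul_comm]; omega]; exact hv)
        rw [h0]; exact zero_mem _
      | succ q ih =>
        intro m hm h hh hv
        obtain ⟨c, hc⟩ := taylor (hol' hh he hp) hv
        choose Z hZ0 hZ1 hZ2 using hZ m (by omega)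
        have h1 : h - ∑ r, c r • Z r ∈ H0 n M k :=
          sub_mem hh (Submodule.sum_mem _ fun r _ => Submodule.smul_mem _ _ (hZ0 r))
        have h2 : VanO ((h - ∑ r, c r • Z r) e) p (m + 1) := by
          have h3 := vsub hc (vsum Finset.univ (fun (r : Fin m → Fin n) y =>
            c r * (Z r e y - ∏ j, (y (r j) - p (r j)))) fun r _ => vconst (c r) (hZ2 r))
          refine vcongr h3 (Eventually.of_forall fun y => ?_)
          simp only
          rw [Pi.sub_apply, Pi.sub_apply, sum_apply']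
          simp only [Pi.smul_apply, smul_eq_mul, mul_sub, Finset.sum_sub_distrib]
          ring
        have h3 := ih (m + 1) (by omega) _ h1 h2
        have h4 : h = (h - ∑ r, c r • Z r) + ∑ r, c r • Z r := by abel
        rw [h4]
        exact add_mem h3 (Submodule.sum_mem _ fun r _ =>
          Submodule.smul_mem _ _ (Submodule.subset_span (hZ1 r)))
    intro h hh
    exact key (k * (n + 1) + 1) 0 (by omega) h hh (hvan (hol' hh he hp))
  have hgen1 : H0 n M 1 ≤ Submodule.span ℂ {s | ∃ α, ∑ i, α i = n + 1 ∧ s = z α} := by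
    refine (hgen 1 le_rfl).trans (Submodule.span_mono ?_)
    rintro s ⟨α, hα, rfl⟩
    exact ⟨α 0, hα 0, by simp⟩
  refine ⟨z, fun α _ => hz α, ?_, ?_, hgen, ?_⟩
  · -- relations
    intro α β α' β' hα hβ hα' hβ' hab
    refine eq_of_germ (mul_mem' (hz α) (hz β)) (mul_mem' (hz α') (hz β')) he hp ?_
    filter_upwards [hzG α hα, hzG β hβ, hzG α' hα', hzG β' hβ'] with y h1 h2 h3 h4
    simp only [Pi.mul_apply, h1, h2, h3, h4, ← Finset.prod_mul_distrib, ← pow_add]
    refine Finset.prod_congr rfl fun i _ => ?_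
    have := congrFun hab i
    simp only [Pi.add_apply] at this
    rw [this]
  · -- no base points
    intro e₂ he₂ y hy
    obtain ⟨s, hs0, hs1⟩ := (hJ 1 le_rfl e₂ he₂ y hy).2 (fun _ => 1)
      (Eventually.of_forall fun y => differentiableAt_const _)
    have hsy : s e₂ y = 1 := by
      have := veval hs1
      rwa [sub_eq_zero] at this
    obtain ⟨α, hα, hαy⟩ : ∃ α, ∑ i, α i = n + 1 ∧ z α e₂ y ≠ 0 := by
      by_contra hcon
      push Not at hcon
      have : s e₂ y = 0 := by
        have h1 := hgen1 hs0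
        refine Submodule.span_induction (p := fun t _ => t e₂ y = 0) ?_ ?_ ?_ ?_ h1
        · rintro t ⟨α, hα, rfl⟩; exact hcon α hα
        · rfl
        · intro a b _ _ ha hb; rw [Pi.add_apply, Pi.add_apply, ha, hb, add_zero]
        · intro c a _ ha; rw [Pi.smul_apply, Pi.smul_apply, ha, smul_zero]
      rw [hsy] at this
      exact one_ne_zero this
    obtain ⟨wd, rfl⟩ := exists_word α hα
    have hrel : z (cnt wd) ^ (n + 1) = ∏ j, z ((n + 1) • Pi.single (wd j) 1) := by
      refine eq_of_germ (k := (n + 1) * 1) (pow_mem' (hz _) (by omega))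
        (prod_mem' n _ fun j => hz _) he hp ?_
      filter_upwards [hcnt wd, eventually_all.2 fun i => hzG _ (hsingle i)] with y h1 h2
      rw [prod_apply', Pi.pow_apply, Pi.pow_apply, h1]
      rw [Finset.prod_congr rfl fun j _ => (h2 (wd j)).trans (hGs (wd j) y), Finset.prod_pow]
    have h3 : (z (cnt wd) ^ (n + 1)) e₂ y ≠ 0 := by
      rw [Pi.pow_apply, Pi.pow_apply]
      exact pow_ne_zero _ hαy
    rw [hrel, prod_apply'] at h3
    exact ⟨wd 0, (Finset.prod_ne_zero_iff.1 h3) 0 (Finset.mem_univ _)⟩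
  · -- immersion
    intro e₂ he₂ y hy i hi v hv
    by_contra hv0
    obtain ⟨j0, hj0⟩ : ∃ j0, v j0 ≠ 0 := by
      by_contra hcon
      push Not at hcon
      exact hv0 (funext hcon)
    set ζ : E n → ℂ := z ((n + 1) • Pi.single i 1) e₂ with hζ
    have hζh : HolAt ζ y := hol' (hz _) he₂ hy
    have hζd : DifferentiableAt ℂ ζ y := hζh.self_of_nhds
    have hζne : ∀ᶠ y' in 𝓝 y, ζ y' ≠ 0 := hζd.continuousAt.eventually_ne hi
    -- a section with derivative `v j0` in the direction `v`
    have hcoord : HolAt (fun y' : E n => y' j0 - y j0) y := Eventually.of_forall fun y' => by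
      fun_prop
    obtain ⟨s, hs0, hs1⟩ := (hJ 1 le_rfl e₂ he₂ y hy).2 _ (hmul hζh hcoord)
    -- derivatives of quotients of sections
    have hspan : ∀ t ∈ Submodule.span ℂ {s | ∃ α, ∑ i, α i = n + 1 ∧ s = z α},
        ∃ L : E n →L[ℂ] ℂ, HasFDerivAt (fun y' => t e₂ y' / ζ y') L y ∧ L v = 0 := by
      intro t ht
      refine Submodule.span_induction (p := fun t _ => ∃ L : E n →L[ℂ] ℂ,
        HasFDerivAt (fun y' => t e₂ y' / ζ y') L y ∧ L v = 0) ?_ ?_ ?_ ?_ ht
      · rintro t ⟨α, hα, rfl⟩
        obtain ⟨wd, rfl⟩ := exists_word α hα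
        have hrel : z (cnt wd) * z ((n + 1) • Pi.single i 1) ^ n =
            ∏ j, z (n • Pi.single i 1 + Pi.single (wd j) 1) := by
          refine eq_of_germ (k := (n + 1) * 1) ?_ (prod_mem' n _ fun j => hz _) he hp ?_
          · have := mul_mem' (hz (cnt wd)) (pow_mem' (hz ((n + 1) • Pi.single i 1)) (l := n) hn)
            rwa [show 1 + n * 1 = (n + 1) * 1 by ring] at this
          · filter_upwards [hcnt wd, hzG _ (hsingle i), eventually_all.2 fun j =>
              hzG _ (hpair i j)] with y h1 h2 h3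
            rw [prod_apply', Pi.mul_apply, Pi.mul_apply, Pi.pow_apply, Pi.pow_apply, h1, h2, hGs]
            rw [Finset.prod_congr rfl fun j _ => (h3 (wd j)).trans (hGp i (wd j) y),
              Finset.prod_mul_distrib, Finset.prod_const, Finset.card_univ, Fintype.card_fin,
              ← pow_mul, ← pow_mul]
            ring
        have hq : ∀ᶠ y' in 𝓝 y, z (cnt wd) e₂ y' / ζ y' =
            ∏ j, (z (n • Pi.single i 1 + Pi.single (wd j) 1) e₂ y' / ζ y') := by
          filter_upwards [hζne] with y' hy'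
          have h1 := congrFun (congrFun hrel e₂) y'
          rw [prod_apply', Pi.mul_apply, Pi.mul_apply, Pi.pow_apply, Pi.pow_apply] at h1
          rw [Finset.prod_div_distrib, ← h1, Finset.prod_const, Finset.card_univ,
            Fintype.card_fin, pow_succ]
          have h2 : z ((n + 1) • Pi.single i 1) e₂ y' = ζ y' := rfl
          rw [h2]
          field_simp
        have hwd : ∀ j, HasFDerivAt (fun y' =>
            z (n • Pi.single i 1 + Pi.single (wd j) 1) e₂ y' / ζ y')
            (fderiv ℂ (fun y' => z (n • Pi.single i 1 + Pi.single (wd j) 1) e₂ y' / ζ y') y) y := by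
          intro j
          have h1 : DifferentiableAt ℂ (z (n • Pi.single i 1 + Pi.single (wd j) 1) e₂) y :=
            (hol' (hz _) he₂ hy).self_of_nhds
          have h2 := h1.mul (hζd.inv hi)
          have h3 : (fun y' => z (n • Pi.single i 1 + Pi.single (wd j) 1) e₂ y' / ζ y') =
              fun y' => z (n • Pi.single i 1 + Pi.single (wd j) 1) e₂ y' * (ζ y')⁻¹ := by
            funext y'; rw [div_eq_mul_inv]
          rw [h3]
          exact h2.hasFDerivAt
        have hp := HasFDerivAt.finsetProd (u := Finset.univ) (fun j _ => hwd j)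
        refine ⟨_, hp.congr_of_eventuallyEq hq, ?_⟩
        rw [ContinuousLinearMap.sum_apply]
        refine Finset.sum_eq_zero fun j _ => ?_
        rw [ContinuousLinearMap.smul_apply, hv (wd j), smul_zero]
      · refine ⟨0, ?_, rfl⟩
        simpa using hasFDerivAt_const (0 : ℂ) y
      · rintro a b _ _ ⟨L, h1, h2⟩ ⟨L', h1', h2'⟩
        refine ⟨L + L', (h1.add h1').congr_of_eventuallyEq
          (Eventually.of_forall fun y' => ?_), by simp [h2, h2']⟩
        simp only [Pi.add_apply, add_div]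
      · rintro c a _ ⟨L, h1, h2⟩
        refine ⟨c • L, (h1.const_smul c).congr_of_eventuallyEq
          (Eventually.of_forall fun y' => ?_), by simp [h2]⟩
        simp only [Pi.smul_apply, smul_eq_mul, mul_div_assoc]
    obtain ⟨L, hL, hLv⟩ := hspan s (hgen1 hs0)
    -- the derivative computed from the jet
    have hL2 : HasFDerivAt (fun y' => s e₂ y' / ζ y')
        (ContinuousLinearMap.proj (R := ℂ) (φ := fun _ : Fin n => ℂ) j0) y := by
      have hv2 : VanO (fun y' => s e₂ y' - ζ y' * (y' j0 - y j0)) y 2 := vmono hs1 (by omega)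
      have hinv : HolAt (fun y' => (ζ y')⁻¹) y := by
        filter_upwards [hζh, hζne] with y' h1 h2
        exact h1.inv h2
      have hv3 := vmul hv2 (hvan hinv)
      rw [add_zero] at hv3
      have hv4 : VanO (fun y' => s e₂ y' / ζ y' - (y' j0 - y j0)) y 2 := by
        refine vcongr hv3 ?_
        filter_upwards [hζne] with y' hy'
        field_simp
      have hsy : s e₂ y / ζ y = 0 := by
        have := veval (m := 1) hv4
        rw [sub_self, sub_zero] at this
        exact this
      rw [hasFDerivAt_iff_isLittleO_nhds_zero]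
      obtain ⟨K, hK⟩ := hv4
      have ht : Tendsto (fun h : E n => y + h) (𝓝 0) (𝓝 y) := by
        have : Continuous fun h : E n => y + h := by fun_prop
        simpa using this.tendsto 0
      have hO : (fun h : E n => s e₂ (y + h) / ζ (y + h) - s e₂ y / ζ y -
          (ContinuousLinearMap.proj (R := ℂ) (φ := fun _ : Fin n => ℂ) j0) h) =O[𝓝 0] fun h => ‖h‖ ^ 2 := by
        refine Asymptotics.IsBigO.of_bound K ?_
        filter_upwards [ht.eventually hK] with h hh
        rw [add_sub_cancel_left] at hh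
        rw [hsy, sub_zero, norm_pow, norm_norm]
        simpa using hh
      refine hO.trans_isLittleO ?_
      have := (Asymptotics.isLittleO_pow_id (𝕜 := ℝ) (n := 2) (by norm_num)).comp_tendsto
        (tendsto_norm_zero (E := E n))
      exact Asymptotics.IsLittleO.of_norm_right this
    have := hL.unique hL2
    rw [this] at hLv
    exact hj0 (by simpa using hLv)

end Pool.Agent.helper63.NU
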